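import Mathlib
import Pool.Agent.Helper45.TC.Df2
import Pool.Agent.Helper68.RR.Trans

/-!
# Frobenius elements and the values of unramified characters
-/

set_option autoImplicit false

open NumberField IsDedekindDomain Module

open scoped Pointwise nonZeroDivisors

namespace Pool.Agent.H96.TC

open Pool.Agent.Helper45.TC

variable {K Ω : Type} [Field K] [NumberField K] [Field Ω] [Algebra K Ω] [IsGalois K Ω]

omit [NumberField K] [IsGalois K Ω] in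
lemma smul_algebraMap_int (g : Ω ≃ₐ[K] Ω) (x : 𝓞 K) :
    g • algebraMap (𝓞 K) (𝓞 Ω) x = algebraMap (𝓞 K) (𝓞 Ω) x := by
  apply RingOfIntegers.ext
  exact g.commutes (x : K)

omit [NumberField K] [IsGalois K Ω] in
lemma bl_smul (Q : Ideal (𝓞 Ω)) (g : Ω ≃ₐ[K] Ω) : bl K Ω (g • Q) = bl K Ω Q := by
  ext x
  change algebraMap (𝓞 K) (𝓞 Ω) x ∈ g • Q ↔ algebraMap (𝓞 K) (𝓞 Ω) x ∈ Q
  rw [Ideal.mem_pointwise_smul_iff_inv_smul_mem, smul_algebraMap_int]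

omit [NumberField K] [IsGalois K Ω] in
lemma isFr_smul {Q : Ideal (𝓞 Ω)} {σ : Ω ≃ₐ[K] Ω} (h : IsFr Q σ) (g : Ω ≃ₐ[K] Ω) :
    IsFr (g • Q) (g * σ * g⁻¹) := by
  intro x
  rw [bl_smul]
  have h1 := Ideal.smul_mem_pointwise_smul g _ _ (h (g⁻¹ • x))
  rw [smul_sub, smul_pow', smul_inv_smul] at h1
  rw [mul_smul, mul_smul]
  exact h1

omit [NumberField K] [IsGalois K Ω] in
/-- two Frobenius elements differ by an element of the inertia group -/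
lemma isFr_mul_inv {Q : Ideal (𝓞 Ω)} {σ σ' : Ω ≃ₐ[K] Ω} (h : IsFr Q σ) (h' : IsFr Q σ') :
    σ * σ'⁻¹ ∈ Q.inertia (Ω ≃ₐ[K] Ω) := by
  intro x
  have h1 := Q.sub_mem (h (σ'⁻¹ • x)) (h' (σ'⁻¹ • x))
  rw [smul_inv_smul] at h1
  change (σ * σ'⁻¹) • x - x ∈ Q
  rw [mul_smul]
  have h2 : σ • σ'⁻¹ • x - x = σ • σ'⁻¹ • x - (σ'⁻¹ • x) ^ Nat.card (𝓞 K ⧸ bl K Ω Q) -
      (x - (σ'⁻¹ • x) ^ Nat.card (𝓞 K ⧸ bl K Ω Q)) := by ring
  rw [h2]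
  exact h1

/-- the value of an unramified character at a prime -/
theorem ev_eq {p : ℕ} {χ : (Ω ≃ₐ[K] Ω) → ZMod p} (hχ : χ ∈ Ch K Ω p)
    {v : HeightOneSpectrum (𝓞 K)} (hv : Unr K Ω χ v) (Q : Ideal (𝓞 Ω)) (hQ : Q.IsMaximal)
    (hQv : bl K Ω Q = v.asIdeal) (σ : Ω ≃ₐ[K] Ω) (hσ : IsFr Q σ) : χ σ = ev χ v := by
  have := ab_max K Ω v
  obtain ⟨g, hg⟩ := Helper68.RR.transitive (K := K) (ab K Ω v) Q (by
    have h1 := bl_ab K Ω v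
    have h2 := hQv
    rw [bl] at h1 h2
    rw [h1, h2])
  have h1 : IsFr Q (g * fr K Ω v * g⁻¹) := by
    rw [hg]
    exact isFr_smul (isFr_fr K Ω v) g
  have h2 := hv Q hQ hQv _ (isFr_mul_inv hσ h1)
  rw [hχ.1, Ch_inv hχ, Ch_conj hχ] at h2
  rw [ev]
  exact eq_of_sub_eq_zero (by rw [sub_eq_add_neg]; exact h2)

end Pool.Agent.H96.TC
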