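import Mathlib
import Pool.Agent.H96.TC.Ev

/-!
# Finiteness of the set of ramified primes, and primes below
-/

set_option autoImplicit false

open NumberField IsDedekindDomain Module

open scoped Pointwise nonZeroDivisors

namespace Pool.Agent.H96.TC

open Pool.Agent.Helper45.TC

/-- only finitely many primes contain a given element -/
lemma finite_mem {K : Type} [Field K] [NumberField K] {n : 𝓞 K} (hn : n ≠ 0) :
    {v : HeightOneSpectrum (𝓞 K) | n ∈ v.asIdeal}.Finite := by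
  have h := Ideal.finite_factors (R := 𝓞 K) (I := Ideal.span {n})
    (by rwa [Ne, Ideal.zero_eq_bot, Ideal.span_singleton_eq_bot])
  refine h.subset fun v hv => ?_
  exact Ideal.dvd_span_singleton.2 hv

/-- an element outside a finite set of primes -/
lemma exists_mul_mem {K : Type} [Field K] [NumberField K] {n : 𝓞 K} (hn : n ≠ 0)
    {B : Set (HeightOneSpectrum (𝓞 K))} (hB : B.Finite) :
    ∃ m : 𝓞 K, m ≠ 0 ∧ n ∣ m ∧ ∀ v ∈ B, m ∈ v.asIdeal := by
  classical
  have h : ∀ v : HeightOneSpectrum (𝓞 K), ∃ b : 𝓞 K, b ∈ v.asIdeal ∧ b ≠ 0 := fun v =>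
    Submodule.exists_mem_ne_zero_of_ne_bot v.ne_bot
  choose b hb hb0 using h
  refine ⟨n * ∏ v ∈ hB.toFinset, b v, mul_ne_zero hn (Finset.prod_ne_zero_iff.2 fun v _ => hb0 v),
    Dvd.intro _ rfl, fun v hv => ?_⟩
  refine Ideal.mul_mem_left _ _ ?_
  have h1 : v ∈ hB.toFinset := hB.mem_toFinset.2 hv
  rw [← Finset.mul_prod_erase _ _ h1]
  exact Ideal.mul_mem_right _ _ (hb v)

section

variable {K F : Type} [Field K] [NumberField K] [Field F] [NumberField F] [Algebra K F]

/-- the prime below a maximal ideal -/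
def dn (K : Type) {F : Type} [Field K] [NumberField K] [Field F] [Algebra K F]
    [Algebra.IsIntegral (𝓞 K) (𝓞 F)] (P : Ideal (𝓞 F)) (hP : P.IsMaximal) :
    HeightOneSpectrum (𝓞 K) where
  asIdeal := bl K F P
  isPrime := by
    have := hP.isPrime
    exact Ideal.comap_isPrime _ _
  ne_bot := by
    have h : (bl K F P).IsMaximal := Ideal.isMaximal_comap_of_isIntegral_of_isMaximal P
    exact Ring.ne_bot_of_isMaximal_of_not_isField h (RingOfIntegers.not_isField K)

/-- there are only finitely many ramified primes -/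
lemma fin_ram (K F : Type) [Field K] [NumberField K] [Field F] [NumberField F] [Algebra K F] :
    ∃ n : 𝓞 K, n ≠ 0 ∧ ∀ P : Ideal (𝓞 F), P.IsMaximal → n ∉ bl K F P →
      ∀ g : F ≃ₐ[K] F, (∀ x : 𝓞 F, g • x - x ∈ P) → g = 1 := by
  classical
  have : FiniteDimensional K F := FiniteDimensional.right ℚ K F
  have hx : ∀ g : F ≃ₐ[K] F, ∃ x : 𝓞 F, g ≠ 1 → g • x - x ≠ 0 := by
    intro g
    by_contra hcon
    push Not at hcon
    have hg : ∀ x : 𝓞 F, g (x : F) = x := by
      intro x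
      have h1 := (hcon x).2
      rw [sub_eq_zero] at h1
      exact congrArg (fun y : 𝓞 F => (y : F)) h1
    apply (hcon 0).1
    ext y
    obtain ⟨a, b, hb, rfl⟩ := IsFractionRing.div_surjective (A := 𝓞 F) y
    change g ((a : F) / (b : F)) = (a : F) / (b : F)
    rw [map_div₀, hg, hg]
  choose x hx using hx
  let D : 𝓞 F := ∏ g ∈ (Finset.univ : Finset (F ≃ₐ[K] F)).erase 1, (g • x g - x g)
  have hD : D ≠ 0 := Finset.prod_ne_zero_iff.2 fun g hg => hx g (Finset.ne_of_mem_erase hg)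
  have hint : IsIntegral (𝓞 K) D := (RingOfIntegers.isIntegral D).tower_top
  have hne : (Ideal.span {D}).comap (algebraMap (𝓞 K) (𝓞 F)) ≠ ⊥ :=
    Ideal.comap_ne_bot_of_integral_mem hD (Ideal.mem_span_singleton_self D) hint
  obtain ⟨n, hn, hn0⟩ := Submodule.exists_mem_ne_zero_of_ne_bot hne
  refine ⟨n, hn0, fun P hP hnP g hg => ?_⟩
  by_contra hg1
  apply hnP
  have h1 : algebraMap (𝓞 K) (𝓞 F) n ∈ Ideal.span {D} := hn
  refine (Ideal.span_singleton_le_iff_mem P).2 ?_ h1
  have h2 : g ∈ (Finset.univ : Finset (F ≃ₐ[K] F)).erase 1 :=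
    Finset.mem_erase.2 ⟨hg1, Finset.mem_univ g⟩
  have h3 : D = (g • x g - x g) *
      ∏ g ∈ ((Finset.univ : Finset (F ≃ₐ[K] F)).erase 1).erase g, (g • x g - x g) :=
    (Finset.mul_prod_erase _ _ h2).symm
  rw [h3]
  exact Ideal.mul_mem_right _ _ (hg (x g))

/-- the norm of a prime below a prime with prime norm -/
lemma nm_dn [Algebra.IsIntegral (𝓞 K) (𝓞 F)] (q : HeightOneSpectrum (𝓞 F))
    (h : (nm q).Prime) : nm (dn K q.asIdeal q.isMaximal) = nm q := by
  let f : (𝓞 K ⧸ bl K F q.asIdeal) →+* (𝓞 F ⧸ q.asIdeal) :=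
    Ideal.quotientMap q.asIdeal (algebraMap (𝓞 K) (𝓞 F)) le_rfl
  have hinj : Function.Injective f := Ideal.quotientMap_injective
  have hfin : Finite (𝓞 F ⧸ q.asIdeal) := Nat.finite_of_card_ne_zero h.ne_zero
  have hsurj : Function.Surjective f := by
    have h1 : Fact (Nat.card (𝓞 F ⧸ q.asIdeal)).Prime := ⟨h⟩
    rcases AddSubgroup.eq_bot_or_eq_top_of_prime_card f.toAddMonoidHom.range with h2 | h2
    · exfalso
      have h3 : (1 : 𝓞 F ⧸ q.asIdeal) ∈ f.toAddMonoidHom.range := ⟨1, map_one f⟩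
      rw [h2, AddSubgroup.mem_bot] at h3
      have : Nontrivial (𝓞 F ⧸ q.asIdeal) := Ideal.Quotient.nontrivial_iff.2 q.isPrime.ne_top
      exact one_ne_zero h3
    · intro y
      have h3 : y ∈ f.toAddMonoidHom.range := h2 ▸ AddSubgroup.mem_top y
      exact h3
  exact Nat.card_congr (Equiv.ofBijective f ⟨hinj, hsurj⟩)

end

end Pool.Agent.H96.TC
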